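import Mathlib

/-!
The theorem of Kuratowski and Mycielski for Polish groups: for a meagre set `N` there is a Cantor
set of points `f a` such that `(f a)⁻¹ * f b` is never in `N`.
-/

open Set Metric Topology Filter

namespace Pool.Agent.W_68f289_h51o

/-- perturbation of finitely many points -/
theorem exists_perturb {X : Type*} [Group X] [MetricSpace X] [CompleteSpace X]
    [IsTopologicalGroup X] {U : Set X} (hUo : IsOpen U) (hUd : Dense U) {S : Type*} [Fintype S]
    (x : S → X) {ε : ℝ} (hε : 0 < ε) :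
    ∃ y : S → X, (∀ s, dist (y s) (x s) < ε) ∧ ∀ s t, s ≠ t → (y s)⁻¹ * y t ∈ U := by
  classical
  have h1 : Dense (⋂ p : {p : S × S // p.1 ≠ p.2}, {y : S → X | (y p.1.1)⁻¹ * y p.1.2 ∈ U}) := by
    refine dense_iInter_of_isOpen (fun p => ?_) (fun p => ?_)
    · exact hUo.preimage (((continuous_apply p.1.1).inv).mul (continuous_apply p.1.2))
    · obtain ⟨⟨s, t⟩, hst⟩ := p
      intro y
      have h2 : Dense {z : X | (y s)⁻¹ * z ∈ U} :=
        hUd.preimage (Homeomorph.mulLeft (y s)⁻¹).isOpenMap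
      have h3 : Function.update y t (y t) ∈
          closure {y : S → X | (y s)⁻¹ * y t ∈ U} := by
        refine map_mem_closure (f := fun z => Function.update y t z)
          (continuous_const.update t continuous_id) (h2 (y t)) ?_
        intro z hz
        show (Function.update y t z s)⁻¹ * Function.update y t z t ∈ U
        rw [Function.update_self, Function.update_of_ne hst]
        exact hz
      rwa [Function.update_eq_self] at h3
  obtain ⟨y, hy, hyx⟩ := Metric.dense_iff.1 h1 x ε hε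
  refine ⟨y, fun s => (dist_le_pi_dist y x s).trans_lt hy, fun s t hst => ?_⟩
  exact mem_iInter.1 hyx ⟨(s, t), hst⟩

/-- the condition on the pairs of points which differ at `i` is open -/
theorem isOpen_cond {X : Type*} [Group X] [TopologicalSpace X] [IsTopologicalGroup X]
    {U : Set X} (hU : IsOpen U) (i : ℕ) :
    IsOpen {f : C(ℕ → Bool, X) | ∀ a b : ℕ → Bool, a i ≠ b i → (f a)⁻¹ * f b ∈ U} := by
  have hK : IsCompact {p : (ℕ → Bool) × (ℕ → Bool) | p.1 i ≠ p.2 i} := by
    refine IsClosed.isCompact ?_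
    have e : {p : (ℕ → Bool) × (ℕ → Bool) | p.1 i ≠ p.2 i} =
        (fun p : (ℕ → Bool) × (ℕ → Bool) => (p.1 i, p.2 i)) ⁻¹' {q | q.1 ≠ q.2} := rfl
    rw [e]
    exact (isClosed_discrete _).preimage (((continuous_apply i).comp continuous_fst).prodMk
      ((continuous_apply i).comp continuous_snd))
  have h0 : Continuous fun q : C(ℕ → Bool, X) × ((ℕ → Bool) × (ℕ → Bool)) =>
      (q.1 q.2.1)⁻¹ * q.1 q.2.2 := by
    have h3 : Continuous fun q : C(ℕ → Bool, X) × ((ℕ → Bool) × (ℕ → Bool)) => q.1 q.2.1 :=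
      continuous_fst.eval (continuous_fst.comp continuous_snd)
    have h4 : Continuous fun q : C(ℕ → Bool, X) × ((ℕ → Bool) × (ℕ → Bool)) => q.1 q.2.2 :=
      continuous_fst.eval (continuous_snd.comp continuous_snd)
    exact h3.inv.mul h4
  have h1 : Continuous fun f : C(ℕ → Bool, X) =>
      (⟨fun p => (f p.1)⁻¹ * f p.2, (f.continuous.comp continuous_fst).inv.mul
        (f.continuous.comp continuous_snd)⟩ : C((ℕ → Bool) × (ℕ → Bool), X)) :=
    ContinuousMap.continuous_of_continuous_uncurry _ h0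
  have e : {f : C(ℕ → Bool, X) | ∀ a b : ℕ → Bool, a i ≠ b i → (f a)⁻¹ * f b ∈ U} =
      (fun f : C(ℕ → Bool, X) =>
      (⟨fun p => (f p.1)⁻¹ * f p.2, (f.continuous.comp continuous_fst).inv.mul
        (f.continuous.comp continuous_snd)⟩ : C((ℕ → Bool) × (ℕ → Bool), X))) ⁻¹'
        {g | MapsTo g {p : (ℕ → Bool) × (ℕ → Bool) | p.1 i ≠ p.2 i} U} := by
    ext f
    constructor
    · intro h p hp
      exact h p.1 p.2 hp
    · intro h a b hab
      exact h (x := (a, b)) hab
  rw [e]
  exact (ContinuousMap.isOpen_setOfPred_mapsTo hK hU).preimage h1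

/-- a continuous map on the Cantor space varies little on small cylinders -/
theorem exists_level {X : Type*} [MetricSpace X] (f : C(ℕ → Bool, X)) (i : ℕ) {ε : ℝ}
    (hε : 0 < ε) : ∃ m : ℕ, i < m ∧ ∀ a b : ℕ → Bool, (∀ j < m, a j = b j) →
      dist (f a) (f b) < ε := by
  by_contra hcon
  push Not at hcon
  set C : ℕ → Set ((ℕ → Bool) × (ℕ → Bool)) := fun m =>
    {p | (∀ j < m, p.1 j = p.2 j) ∧ ε ≤ dist (f p.1) (f p.2)} with hC
  have hcl : ∀ m, IsClosed (C m) := by
    intro m
    refine IsClosed.inter ?_ ?_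
    · have e : {p : (ℕ → Bool) × (ℕ → Bool) | ∀ j < m, p.1 j = p.2 j} =
          ⋂ j : ℕ, ⋂ _ : j < m, {p | p.1 j = p.2 j} := by
        ext p
        simp
      show IsClosed {p : (ℕ → Bool) × (ℕ → Bool) | ∀ j < m, p.1 j = p.2 j}
      rw [e]
      exact isClosed_iInter fun j => isClosed_iInter fun _ =>
        isClosed_eq ((continuous_apply j).comp continuous_fst)
          ((continuous_apply j).comp continuous_snd)
    · exact isClosed_le continuous_const ((f.continuous.comp continuous_fst).dist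
        (f.continuous.comp continuous_snd))
  obtain ⟨p, hp⟩ := IsCompact.nonempty_iInter_of_sequence_nonempty_isCompact_isClosed C
    (fun m p hp => ⟨fun j hj => hp.1 j (by omega), hp.2⟩)
    (fun m => by
      obtain ⟨a, b, h1, h2⟩ := hcon (max m (i + 1)) (by omega)
      exact ⟨(a, b), fun j hj => h1 j (by omega), h2⟩)
    (hcl 0).isCompact hcl
  rw [mem_iInter] at hp
  have h1 : p.1 = p.2 := by
    funext j
    exact (hp (j + 1)).1 j (by omega)
  have h2 := (hp 0).2
  rw [h1, dist_self] at h2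
  linarith

/-- the condition on the pairs of points which differ at `i` is dense -/
theorem dense_cond {X : Type*} [Group X] [MetricSpace X] [CompleteSpace X]
    [IsTopologicalGroup X] {U : Set X} (hUo : IsOpen U) (hUd : Dense U) (i : ℕ) :
    Dense {f : C(ℕ → Bool, X) | ∀ a b : ℕ → Bool, a i ≠ b i → (f a)⁻¹ * f b ∈ U} := by
  rw [Metric.dense_iff]
  intro f ε hε
  obtain ⟨m, hm, hfm⟩ : ∃ m : ℕ, i < m ∧ ∀ a b : ℕ → Bool, (∀ j < m, a j = b j) →
      dist (f a) (f b) < ε / 2 := exists_level f i (half_pos hε)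
  set ex : (Fin m → Bool) → (ℕ → Bool) := fun s j => if h : j < m then s ⟨j, h⟩ else false with hex
  obtain ⟨y, hy, hyU⟩ := exists_perturb hUo hUd (fun s => f (ex s)) (half_pos hε)
  have hr : Continuous fun (a : ℕ → Bool) (j : Fin m) => a j :=
    continuous_pi fun j => continuous_apply _
  refine ⟨⟨fun a => y fun j => a j, (continuous_of_discreteTopology (f := y)).comp hr⟩, ?_, ?_⟩
  · rw [Metric.mem_ball, ContinuousMap.dist_lt_iff hε]
    intro a
    have h1 : dist (f (ex fun j => a j)) (f a) < ε / 2 := by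
      refine hfm _ _ fun j hj => ?_
      simp only [hex, dif_pos hj]
    calc dist (y fun j => a j) (f a) ≤ dist (y fun j => a j) (f (ex fun j => a j)) +
        dist (f (ex fun j => a j)) (f a) := dist_triangle _ _ _
      _ < ε / 2 + ε / 2 := add_lt_add (hy _) h1
      _ = ε := add_halves ε
  · intro a b hab
    refine hyU _ _ fun h => hab ?_
    exact congrFun h ⟨i, hm⟩

/-- for a meagre set `N` in a Polish group there is a Cantor family of points whose quotients
avoid `N` -/
theorem myc {X : Type*} [Group X] [TopologicalSpace X] [IsTopologicalGroup X] [PolishSpace X]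
    {N : Set X} (hN : IsMeagre N) : ∃ f : (ℕ → Bool) → X, ∀ a b, a ≠ b → (f a)⁻¹ * f b ∉ N := by
  let _ := TopologicalSpace.upgradeIsCompletelyMetrizable X
  obtain ⟨S, hSo, hSd, hSc, hSN⟩ := mem_residual_iff.1 hN
  have hSc' : Countable S := hSc.to_subtype
  have h1 : Dense (⋂ p : ℕ × S,
      {f : C(ℕ → Bool, X) | ∀ a b : ℕ → Bool, a p.1 ≠ b p.1 → (f a)⁻¹ * f b ∈ (p.2 : Set X)}) :=
    dense_iInter_of_isOpen (fun p => isOpen_cond (hSo _ p.2.2) p.1)
      (fun p => dense_cond (hSo _ p.2.2) (hSd _ p.2.2) p.1)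
  obtain ⟨f, hf⟩ := h1.nonempty
  refine ⟨f, fun a b hab hN' => ?_⟩
  obtain ⟨i, hi⟩ := Function.ne_iff.1 hab
  refine hSN (mem_sInter.2 fun t ht => ?_) hN'
  exact mem_iInter.1 hf (i, ⟨t, ht⟩) a b hi

end Pool.Agent.W_68f289_h51o
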