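import Pool.Agent.W_68f289_h51n.Gc0
import Pool.Agent.W_68f289_h51o.Myc

/-!
A subgroup of index less than the continuum is not meagre.
-/

open Set Metric Topology Filter

namespace Pool.Agent.W_68f289_h51o

open Pool.Agent.W_MP_68f289_gt Pool.Agent.W_68f289_h51n

variable {n : ℕ} {R : ℝ}

/-- a subgroup of index less than the continuum is not meagre -/
theorem nonmeagre_of_lt {N : Subgroup (G n)} (hc : Cardinal.mk (G n ⧸ N) < Cardinal.continuum)
    (hR0 : 0 ≤ R) (hR1 : R < 1) : ¬ IsMeagre (NX N R) := by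
  rw [meagre_iff hR0 hR1]
  intro hM
  have hcl : IsClosed (((Gn n R).map (res (n := n)) : Subgroup (HG (Zn n))) : Set (HG (Zn n))) :=
    closed_Gn hR0 hR1
  have hP : PolishSpace ↥((Gn n R).map (res (n := n))) := hcl.polishSpace
  obtain ⟨f, hf⟩ := myc hM
  have h1 : ∀ a : ℕ → Bool, ∃ g : G n, res g = (f a).1 := by
    intro a
    obtain ⟨g, _, hg⟩ := (f a).2
    exact ⟨g, hg⟩
  choose g hg using h1
  have h2 : Function.Injective fun a : ℕ → Bool => (g a : G n ⧸ N) := by
    intro a b hab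
    by_contra hne
    refine hf a b hne ⟨(g a)⁻¹ * g b, QuotientGroup.eq.1 hab, ?_⟩
    rw [map_mul, map_inv, hg, hg]
    rfl
  have h3 := Cardinal.mk_le_of_injective h2
  have h4 : Cardinal.mk (ℕ → Bool) = Cardinal.continuum := by
    rw [← Cardinal.power_def]
    simp
  rw [h4] at h3
  exact absurd hc (not_lt.2 h3)

end Pool.Agent.W_68f289_h51o
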