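import Pool.Agent.W_68f289_h51n.Gc4
import Pool.Agent.W_68f289_h51n.Gc3
import Pool.Agent.W_68f289_h51o.Nl

/-!
Subgroups of index less than the continuum.
-/

open Set Metric Topology Filter

namespace Pool.Agent.W_68f289_h51o

open Pool.Agent.W_MP_68f289_gt Pool.Agent.W_68f289_h51n

variable {n : ℕ} {R : ℝ}

theorem card_top : Cardinal.mk (G n ⧸ (⊤ : Subgroup (G n))) < Cardinal.continuum := by
  have h : Countable (G n ⧸ (⊤ : Subgroup (G n))) := countable_top
  exact Cardinal.mk_le_aleph0.trans_lt Cardinal.aleph0_lt_continuum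

/-- From the implication for meagre sets to the three equivalent properties. -/
theorem tfae_card {N : Subgroup (G n)} (h : (∀ R₀ : ℝ, R₀ < 1 → ∃ R : ℝ, R₀ < R ∧ R < 1 ∧
    ¬ IsMeagre (NX N R)) → N = ⊤) :
    [N = ⊤, Cardinal.mk (G n ⧸ N) < Cardinal.continuum,
      ¬ ∃ R₀ : ℝ, R₀ < 1 ∧ ∀ R : ℝ, R₀ < R → R < 1 → IsMeagre (NX N R)].TFAE := by
  tfae_have 1 → 2 := by
    rintro rfl
    exact card_top
  tfae_have 2 → 3 := by
    rintro hc ⟨R₀, hR₀, hM⟩
    have h1 : max R₀ 0 < 1 := max_lt hR₀ zero_lt_one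
    have h2 := le_max_left R₀ 0
    have h3 := le_max_right R₀ 0
    exact nonmeagre_of_lt hc (R := (max R₀ 0 + 1) / 2) (by linarith) (by linarith)
      (hM _ (by linarith) (by linarith))
  tfae_have 3 → 1 := by
    intro h3
    refine h fun R₀ hR₀ => ?_
    push Not at h3
    obtain ⟨R, h4, h5, h6⟩ := h3 R₀ hR₀
    exact ⟨R, h4, h5, h6⟩
  tfae_finish

/-- the three equivalent properties -/
theorem subgroup_card {N : Subgroup (G n)} (hN : N = (Hameo n).subgroupOf (HamBar n) ∨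
    N = commutator (G n) ∨ N = FrL (HamBar n) ∨
    ∃ T : Set (G n), T.Countable ∧ N = Subgroup.normalClosure T) :
    [N = ⊤, Cardinal.mk (G n ⧸ N) < Cardinal.continuum,
      ¬ ∃ R₀ : ℝ, R₀ < 1 ∧ ∀ R : ℝ, R₀ < R → R < 1 → IsMeagre (NX N R)].TFAE := by
  rcases hN with rfl | rfl | rfl | ⟨T, hT, rfl⟩
  · exact tfae_card hameo_top
  · exact tfae_card com_top
  · exact tfae_card fr_top
  · exact tfae_card (conj_top hT)

/-- a countable set whose normal closure has index less than the continuum -/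
theorem normalClosure_card_top {T : Set (G n)} (hT : T.Countable)
    (hc : Cardinal.mk (G n ⧸ Subgroup.normalClosure T) < Cardinal.continuum) :
    Subgroup.normalClosure T = ⊤ :=
  ((tfae_card (conj_top hT)).out 1 0).1 hc

/-- criteria for simplicity -/
theorem simple_card (hn : 1 ≤ n) : [IsSimpleGroup (G n),
    ∃ T : Set (G n), T.Finite ∧
      Cardinal.mk (G n ⧸ Subgroup.normalClosure T) < Cardinal.continuum,
    ∃ h : G n, h ≠ 1 ∧ (∃ a b : G n, IsHam n (a : E n ≃ₜ E n) ∧ IsHam n (b : E n ≃ₜ E n) ∧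
      h = a * b * a⁻¹ * b⁻¹) ∧
        Cardinal.mk (G n ⧸ Subgroup.normalClosure {h}) < Cardinal.continuum,
    ∀ h : G n, h ≠ 1 → BddGen n (Conj {h})].TFAE := by
  have h0 := simple_tfae hn
  tfae_have 1 ↔ 4 := h0.out 0 3
  tfae_have 1 → 3 := by
    intro h1
    have h2 : ∀ h : G n, h ≠ 1 → BddGen n (Conj {h}) := (h0.out 0 3).1 h1
    obtain ⟨a, b, ha, hb, hab⟩ := exists_noncomm hn
    refine ⟨_, hab, ⟨a, b, ha, hb, rfl⟩, ?_⟩
    have h3 := (h2 _ hab).top
    rw [closure_Conj] at h3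
    rw [h3]
    exact card_top
  tfae_have 3 → 2 := by
    rintro ⟨h, _, _, hc⟩
    exact ⟨{h}, finite_singleton h, hc⟩
  tfae_have 2 → 1 := by
    rintro ⟨T, hT, hc⟩
    have h5 : IsSimpleGroup (G n) ↔ ∃ T : Set (G n), T.Finite ∧
        Countable (G n ⧸ Subgroup.normalClosure T) := h0.out 0 1
    refine h5.2 ⟨T, hT, ?_⟩
    rw [normalClosure_card_top hT.countable hc]
    exact countable_top
  tfae_finish

end Pool.Agent.W_68f289_h51o
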